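import Pool.Agent.H23.GHK.TRF
import Pool.Agent.H31.GK.TG

/-!
# Scalar products of translates (MP_52e316_nt, board ghk)
-/

set_option autoImplicit false

namespace Pool.Agent.H20.GK

open MeasureTheory Pool.Agent.H34.GM Pool.Agent.H34.GZ Pool.Agent.H34.GU Pool.Agent.H34.GA
open Pool.Agent.H23.GHK

theorem pf_TRI (hVL : T_VLM) (hRTI : T_RTI) (hALU : T_ALU) : Pool.Agent.H31.GK.T_TRI := by
  intro m N _ T D hS F G lam lam' hF hG w w' hw hw'
  exact ip_tr2 hVL hRTI hALU hS (ivf_of hF) (ivf_of hG) hw' hw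

end Pool.Agent.H20.GK
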